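import Pool.Agent.Helper89K9.MA.Stm

/-!
# Circuits: `n` parities of `K` bits
-/

set_option autoImplicit false

namespace Pool.Agent.Helper86K9.MA

open Finset
open H746R3.Inv (LD bK)
open Pool.Agent.Helper89K9.MA (chK par S_SPAN S_CNT S_TP S_CORE2)
open Pool.Agent.H699R2.OMV (Prog Vec)

namespace Core2L

/-- the sign of an element of `ZMod 2` -/
def ps (F : Type) [Field F] (b : ZMod 2) : F := if b = 0 then 1 else -1

theorem ps_zero (F : Type) [Field F] : ps F 0 = 1 := by simp [ps]

theorem ps_add (F : Type) [Field F] (a b : ZMod 2) : ps F (a + b) = ps F a * ps F b := by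
  have h : ∀ c : ZMod 2, c = 0 ∨ c = 1 := by decide
  have h10 : (1 : ZMod 2) ≠ 0 := by decide
  have h11 : (1 : ZMod 2) + 1 = 0 := by decide
  rcases h a with rfl | rfl <;> rcases h b with rfl | rfl <;> simp [ps, h11]

theorem ps_sum (F : Type) [Field F] {ι : Type} (s : Finset ι) (f : ι → ZMod 2) :
    ps F (∑ i ∈ s, f i) = ∏ i ∈ s, ps F (f i) := by
  classical
  induction s using Finset.induction_on with
  | empty => simp [ps_zero]
  | insert i s hi ih => rw [Finset.sum_insert hi, Finset.prod_insert hi, ps_add, ih]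

theorem ps_par (F : Type) [Field F] {n K : ℕ} (z : Fin n × Fin K → Bool) (r : Fin n) :
    ps F (par z r) = chK (univ.filter fun c : Fin n × Fin K => c.1 = r) z := by
  unfold par
  rw [ps_sum]
  have h : (univ.filter fun c : Fin n × Fin K => c.1 = r) =
      (univ : Finset (Fin K)).image fun k => (r, k) := by
    ext ⟨a, b⟩
    simp [Prod.ext_iff, eq_comm]
  rw [h]
  unfold chK
  rw [Finset.prod_image fun a _ b _ h => (Prod.ext_iff.1 h).2]
  refine Finset.prod_congr rfl fun k _ => ?_
  simp only [ps]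
  cases z (r, k) <;> simp

end Core2L

open Core2L

theorem core2 : S_TP → S_SPAN → S_CNT → S_CORE2 := by
  intro hTP hSPAN hCNT p hp hp2 n K w A D τ hK hT m T u P hP
  classical
  refine le_trans (Nat.mul_le_mul_right _ (hSPAN p hp2 n K (τ * (w * D)) _ ?_))
    (hCNT n K (τ * (w * D)) hK hT)
  intro S
  obtain ⟨Q, hQ, hQe⟩ := hTP (ZMod p) (Fin n × Fin K) A (Vec n) w D τ m P hP
    (fun y => ∏ r ∈ S, ps (ZMod p) (y r - u r)) T
  refine ⟨Q, hQ, fun x hx => ?_⟩
  obtain ⟨h1, h2, h3⟩ := (Finset.mem_filter.1 hx).2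
  rw [hQe x h1, if_pos h3, h2]
  refine Finset.prod_congr rfl fun r _ => ?_
  rw [← ps_par]
  congr 1
  simp

end Pool.Agent.Helper86K9.MA
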