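import Pool.Agent.Helper89K9.MA.Stm

/-!
# Smolensky's dimension argument for `n` rows
-/

set_option autoImplicit false

namespace Pool.Agent.Helper86K9.MA

open Finset
open H746R3.Inv (LD bK mono)
open Pool.Agent.Helper89K9.MA (chK S_SPAN)

namespace SpanL

variable {F V : Type} [Field F] [Fintype V] [DecidableEq V]

/-- sign of a bit -/
def sg (F : Type) [Field F] (b : Bool) : F := if b then -1 else 1

omit [Fintype V] in
theorem sg_mul_self (b : Bool) : sg F b * sg F b = 1 := by cases b <;> simp [sg]

omit [Fintype V] [DecidableEq V] in
theorem chK_def (U : Finset V) (x : V → Bool) : (chK U x : F) = ∏ i ∈ U, sg F (x i) := rfl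

theorem chK_mul (U W : Finset V) (x : V → Bool) :
    (chK U x : F) * chK W x = chK (symmDiff U W) x := by
  have h : ∀ D : Finset V, (chK D x : F) = ∏ i : V, if i ∈ D then sg F (x i) else 1 := by
    intro D
    rw [chK_def, Finset.prod_ite_mem, Finset.univ_inter]
  rw [h, h, h, ← Finset.prod_mul_distrib]
  refine Finset.prod_congr rfl fun i _ => ?_
  by_cases h1 : i ∈ U <;> by_cases h2 : i ∈ W <;>
    simp [h1, h2, Finset.mem_symmDiff, sg_mul_self]

omit [Fintype V] in
theorem bK_eq (h2 : (2 : F) ≠ 0) (b : Bool) : (bK b : F) = (-1 / 2) * sg F b + 1 / 2 := by
  cases b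
  · simp [sg]; ring
  · simp only [H746R3.Inv.bK_true, sg, if_true]
    field_simp
    ring

omit [Fintype V] in
theorem LD_le (h2 : (2 : F) ≠ 0) (d : ℕ) :
    LD F V d ≤ Submodule.span F {f | ∃ Z : Finset V, Z.card ≤ d ∧ f = fun x => (chK Z x : F)} := by
  refine Submodule.span_le.2 ?_
  rintro f ⟨B, hB, rfl⟩
  have h1 : (mono B : (V → Bool) → F) = ∑ Z ∈ B.powerset,
      (((-1 / 2 : F)) ^ Z.card * (1 / 2) ^ (B \ Z).card) • (fun x => (chK Z x : F)) := by
    funext x
    rw [Finset.sum_apply]
    simp only [Pi.smul_apply, smul_eq_mul, mono]
    rw [Finset.prod_congr rfl fun i _ => bK_eq h2 (x i), Finset.prod_add]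
    refine Finset.sum_congr rfl fun Z _ => ?_
    rw [Finset.prod_mul_distrib, Finset.prod_const, Finset.prod_const, chK_def]
    ring
  rw [h1]
  exact Submodule.sum_mem _ fun Z hZ => Submodule.smul_mem _ _ (Submodule.subset_span
    ⟨Z, (Finset.card_le_card (Finset.mem_powerset.1 hZ)).trans hB, rfl⟩)

end SpanL

open SpanL

theorem span_ : S_SPAN := by
  intro p hp hp2 n K T 𝒢 hQ
  classical
  have h2 : (2 : ZMod p) ≠ 0 := by
    intro h
    have h3 : ((2 : ℕ) : ZMod p) = 0 := by exact_mod_cast h
    rw [ZMod.natCast_eq_zero_iff] at h3
    exact hp2 ((Nat.prime_dvd_prime_iff_eq hp.out Nat.prime_two).1 h3)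
  set good : Finset (Finset (Fin n × Fin K)) := univ.filter fun W : Finset (Fin n × Fin K) =>
      ∑ r, (2 * (W.filter fun c => c.1 = r).card - K) ≤ T with hgood
  set R : (((Fin n × Fin K → Bool) → ZMod p) →ₗ[ZMod p] (𝒢 → ZMod p)) :=
    LinearMap.funLeft (ZMod p) (ZMod p) (Subtype.val : 𝒢 → (Fin n × Fin K → Bool)) with hR
  set M : Submodule (ZMod p) (𝒢 → ZMod p) :=
    Submodule.span (ZMod p) ((good.image fun W => R fun x => (chK W x : ZMod p) : Finset _) :
      Set (𝒢 → ZMod p)) with hM
  have key : ∀ m : ℕ, ∀ W : Finset (Fin n × Fin K), W.card = m →
      R (fun x => (chK W x : ZMod p)) ∈ M := by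
    intro m
    induction m using Nat.strong_induction_on with
    | _ m ih =>
      intro W hW
      by_cases hWg : W ∈ good
      · refine Submodule.subset_span ?_
        rw [Finset.mem_coe, Finset.mem_image]
        exact ⟨W, hWg, rfl⟩
      · have hT : T < ∑ r, (2 * (W.filter fun c => c.1 = r).card - K) := by
          rw [hgood, Finset.mem_filter] at hWg
          push Not at hWg
          exact hWg (Finset.mem_univ _)
        set S : Finset (Fin n) := univ.filter fun r => K < 2 * (W.filter fun c => c.1 = r).card
          with hS
        obtain ⟨Q, hQd, hQe⟩ := hQ S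
        set RS : Finset (Fin n × Fin K) := univ.filter fun c => c.1 ∈ S with hRS
        set W' := symmDiff W RS with hW'
        have hprod : ∀ x : Fin n × Fin K → Bool,
            ∏ r ∈ S, (chK (univ.filter fun c : Fin n × Fin K => c.1 = r) x : ZMod p) =
              chK RS x := by
          intro x
          have h3 := Finset.prod_fiberwise_of_maps_to (s := RS) (t := S)
            (g := fun c : Fin n × Fin K => c.1) (fun c hc => by
              rw [hRS, Finset.mem_filter] at hc
              exact hc.2) (fun c => sg (ZMod p) (x c))
          rw [chK_def, ← h3]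
          refine Finset.prod_congr rfl fun r hr => ?_
          rw [chK_def]
          refine Finset.prod_congr ?_ fun _ _ => rfl
          ext c
          simp only [hRS, Finset.mem_filter, Finset.mem_univ, true_and]
          constructor
          · rintro rfl
            exact ⟨hr, rfl⟩
          · exact fun h => h.2
        have hcard : W'.card + ∑ r, (2 * (W.filter fun c => c.1 = r).card - K) = W.card := by
          have hrow : ∀ r : Fin n, (univ.filter fun c : Fin n × Fin K => c.1 = r).card = K := by
            intro r
            have : (univ.filter fun c : Fin n × Fin K => c.1 = r) =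
                (univ : Finset (Fin K)).image fun k => (r, k) := by
              ext ⟨a, b⟩
              simp [Prod.ext_iff, eq_comm]
            rw [this, Finset.card_image_of_injective _ (fun a b h => (Prod.ext_iff.1 h).2)]
            simp
          have hsum : ∀ U : Finset (Fin n × Fin K),
              U.card = ∑ r, (U.filter fun c => c.1 = r).card := fun U =>
            Finset.card_eq_sum_card_fiberwise fun c _ => Finset.mem_univ _
          rw [hsum W', hsum W, ← Finset.sum_add_distrib]
          refine Finset.sum_congr rfl fun r _ => ?_
          have hle : (W.filter fun c => c.1 = r).card ≤ K := by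
            refine (Finset.card_le_card ?_).trans (hrow r).le
            exact Finset.filter_subset_filter _ (Finset.subset_univ _)
          by_cases hr : K < 2 * (W.filter fun c => c.1 = r).card
          · have hrS : r ∈ S := by rw [hS, Finset.mem_filter]; exact ⟨Finset.mem_univ _, hr⟩
            have h4 : (W'.filter fun c => c.1 = r) =
                (univ.filter fun c : Fin n × Fin K => c.1 = r) \ (W.filter fun c => c.1 = r) := by
              ext c
              simp only [hW', hRS, Finset.mem_filter, Finset.mem_symmDiff, Finset.mem_univ,
                true_and, Finset.mem_sdiff]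
              constructor
              · rintro ⟨h5, rfl⟩
                refine ⟨rfl, fun h6 => ?_⟩
                rcases h5 with h5 | h5
                · exact h5.2 hrS
                · exact h5.2 h6.1
              · rintro ⟨rfl, h6⟩
                refine ⟨Or.inr ⟨hrS, fun h7 => h6 ⟨h7, rfl⟩⟩, rfl⟩
            rw [h4, Finset.card_sdiff_of_subset
              (Finset.filter_subset_filter _ (Finset.subset_univ _)), hrow r]
            omega
          · have hrS : r ∉ S := by
              rw [hS, Finset.mem_filter]; exact fun h => hr h.2
            have h4 : (W'.filter fun c => c.1 = r) = (W.filter fun c => c.1 = r) := by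
              ext c
              simp only [hW', hRS, Finset.mem_filter, Finset.mem_symmDiff, Finset.mem_univ,
                true_and]
              constructor
              · rintro ⟨h5, rfl⟩
                rcases h5 with h5 | h5
                · exact ⟨h5.1, rfl⟩
                · exact absurd h5.1 hrS
              · rintro ⟨h5, rfl⟩
                exact ⟨Or.inl ⟨h5, hrS⟩, rfl⟩
            rw [h4]
            omega
        have hRW : R (fun x => (chK W x : ZMod p)) = R (fun x => chK W' x * Q x) := by
          funext x
          simp only [hR, LinearMap.funLeft_apply]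
          rw [hQe x.1 x.2, hprod, chK_mul, hW', symmDiff_symmDiff_cancel_right]
        rw [hRW]
        have hmul : ∀ f : (Fin n × Fin K → Bool) → ZMod p,
            f ∈ Submodule.span (ZMod p) {f | ∃ Z : Finset (Fin n × Fin K), Z.card ≤ T ∧
              f = fun x => (chK Z x : ZMod p)} → R (fun x => chK W' x * f x) ∈ M := by
          intro f hf
          refine Submodule.span_induction (p := fun f _ => R (fun x => chK W' x * f x) ∈ M)
            ?_ ?_ ?_ ?_ hf
          · rintro f ⟨Z, hZ, rfl⟩
            have h5 : (fun x => (chK W' x : ZMod p) * chK Z x) =
                fun x => (chK (symmDiff W' Z) x : ZMod p) := by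
              funext x
              exact chK_mul _ _ _
            rw [h5]
            have h6 : (symmDiff W' Z).card ≤ W'.card + Z.card := by
              rw [Finset.symmDiff_def]
              exact (Finset.card_union_le _ _).trans (Nat.add_le_add
                (Finset.card_le_card Finset.sdiff_subset)
                (Finset.card_le_card Finset.sdiff_subset))
            exact ih _ (by omega) _ rfl
          · have : (fun x : Fin n × Fin K → Bool => (chK W' x : ZMod p) *
                (0 : (Fin n × Fin K → Bool) → ZMod p) x) = 0 := by
              funext x; simp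
            rw [this, map_zero]
            exact Submodule.zero_mem _
          · intro a b _ _ ha hb
            have : (fun x : Fin n × Fin K → Bool => (chK W' x : ZMod p) * (a + b) x) =
                (fun x => chK W' x * a x) + fun x => chK W' x * b x := by
              funext x; simp [mul_add]
            rw [this, map_add]
            exact Submodule.add_mem _ ha hb
          · intro c a _ ha
            have : (fun x : Fin n × Fin K → Bool => (chK W' x : ZMod p) * (c • a) x) =
                c • (fun x => chK W' x * a x) := by
              funext x; simp [mul_left_comm]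
            rw [this, map_smul]
            exact Submodule.smul_mem _ _ ha
        exact hmul Q (LD_le h2 T hQd)
  have htop : M = ⊤ := by
    rw [eq_top_iff]
    intro g _
    obtain ⟨f, rfl⟩ := LinearMap.funLeft_surjective_of_injective (ZMod p) (ZMod p)
      (Subtype.val : 𝒢 → (Fin n × Fin K → Bool)) Subtype.val_injective g
    have hf := H746R3.Inv.mem_span_chi (K := ZMod p) (-1 : ZMod p) (by
      intro h
      apply h2
      have : (1 : ZMod p) + 1 = 0 := by
        nth_rewrite 1 [← h]
        ring
      rw [← this]; norm_num) f
    refine Submodule.span_induction (p := fun f _ => R f ∈ M) ?_ ?_ ?_ ?_ hf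
    · rintro f ⟨B, rfl⟩
      exact key _ B rfl
    · rw [map_zero]; exact Submodule.zero_mem _
    · intro a b _ _ ha hb
      rw [map_add]; exact Submodule.add_mem _ ha hb
    · intro c a _ ha
      rw [map_smul]; exact Submodule.smul_mem _ _ ha
  have h7 : Module.finrank (ZMod p) M ≤ good.card :=
    (finrank_span_finset_le_card _).trans Finset.card_image_le
  rw [htop, finrank_top, Module.finrank_fintype_fun_eq_card, Fintype.card_coe] at h7
  exact h7

end Pool.Agent.Helper86K9.MA
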